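import Pool.Agent.W894.HT.MLib

/-! HN-CAST -/

set_option autoImplicit false

namespace Pool.Agent.W108.HNCast

open Pool.Agent.W894.HT

theorem gw_cast {N A : Type} [DecidableEq N] [CommRing A] (E : List (N × N × Bool)) (u v : N) :
    ((gw (A := ℤ) E u v : ℤ) : A) = gw (A := A) E u v := by
  unfold gw
  induction E with
  | nil => simp
  | cons t E ih =>
    rw [List.map_cons, List.sum_cons, List.map_cons, List.sum_cons, Int.cast_add, ih]
    congr 1
    split_ifs <;> simp

theorem wtg_cast {N A : Type} [DecidableEq N] [CommRing A] (E : List (N × N × Bool)) (e : N)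
    (l : List N) : ∀ x : N, ((wtg (A := ℤ) (gw E) e x l : ℤ) : A) = wtg (A := A) (gw E) e x l := by
  induction l with
  | nil => exact fun x => gw_cast E x e
  | cons v l ih =>
    intro x
    show (((gw (A := ℤ) E x v) * (wtg (A := ℤ) (gw E) e v l) : ℤ) : A) = gw (A := A) E x v * wtg (A := A) (gw E) e v l
    rw [Int.cast_mul, gw_cast, ih]

theorem sum_cast {A T : Type} [CommRing A] (L : List T) (f : T → ℤ) (g : T → A)
    (h : ∀ t, ((f t : ℤ) : A) = g t) : (((L.map f).sum : ℤ) : A) = (L.map g).sum := by
  induction L with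
  | nil => simp
  | cons t L ih => rw [List.map_cons, List.sum_cons, List.map_cons, List.sum_cons, Int.cast_add, ih, h]

theorem main : S_CAST := by
  intro A N _ _ E x e V
  unfold PR
  refine sum_cast _ _ _ fun S => sum_cast _ _ _ fun l => ?_
  rw [Int.cast_mul, wtg_cast, Int.cast_pow, Int.cast_one]

end Pool.Agent.W108.HNCast
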