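import Pool.Agent.W921.VP.Defs

set_option autoImplicit false

/-! Project VP, task MEA (helper108). -/

namespace Pool.Agent.W108.VPMEA

open FirstOrder Set Pool.Agent.W921.VP MeasureTheory
open FirstOrder.Language (Theory BoundedFormula Term Sentence Formula)

variable {L : FirstOrder.Language.{0, 0}}

theorem countable_sent (hL : Countable L.Symbols) : Countable L.Sentence := by
  have h3 : Cardinal.mk (Σ n, L.BoundedFormula Empty n) ≤ Cardinal.aleph0 := by
    refine BoundedFormula.card_le.trans ?_
    refine max_le le_rfl ?_
    rw [Cardinal.mk_eq_zero Empty]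
    simp only [zero_add, Cardinal.lift_id]
    exact Cardinal.mk_le_aleph0
  have h4 : Countable (Σ n, L.BoundedFormula Empty n) := Cardinal.mk_le_aleph0_iff.1 h3
  exact (sigma_mk_injective (β := fun n => L.BoundedFormula Empty n) (i := 0)).countable

theorem term_indep [L.IsRelational] {α : Type} (t : L.Term α) (c c' : Code L) (v : α → ℕ) :
    @Term.realize L ℕ (str c) α v t = @Term.realize L ℕ (str c') α v t := by
  cases t with
  | var i => rfl
  | func f ts => exact isEmptyElim f

theorem meas [L.IsRelational] {n : ℕ} (φ : L.BoundedFormula Empty n) (w : Empty → ℕ)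
    (v : Fin n → ℕ) :
    MeasurableSet {c : Code L | @BoundedFormula.Realize L ℕ (str c) Empty n φ w v} := by
  induction φ with
  | falsum =>
    have e : {c : Code L | @BoundedFormula.Realize L ℕ (str c) Empty _ BoundedFormula.falsum w v} =
        ∅ := by
      ext c
      exact Iff.rfl
    rw [e]
    exact MeasurableSet.empty
  | equal t₁ t₂ =>
    have e : {c : Code L | @BoundedFormula.Realize L ℕ (str c) Empty _
        (BoundedFormula.equal t₁ t₂) w v} = {_c : Code L |
        @Term.realize L ℕ (str fun _ => true) _ (Sum.elim w v) t₁ =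
          @Term.realize L ℕ (str fun _ => true) _ (Sum.elim w v) t₂} := by
      ext c
      change @Term.realize L ℕ (str c) _ (Sum.elim w v) t₁ =
        @Term.realize L ℕ (str c) _ (Sum.elim w v) t₂ ↔ _
      rw [term_indep t₁ c (fun _ => true), term_indep t₂ c (fun _ => true)]
      exact Iff.rfl
    rw [e]
    exact MeasurableSet.const _
  | @rel m k R ts =>
    have e : {c : Code L | @BoundedFormula.Realize L ℕ (str c) Empty _
        (BoundedFormula.rel R ts) w v} = (fun c : Code L => c ⟨_, R, fun i =>
          @Term.realize L ℕ (str fun _ => true) _ (Sum.elim w v) (ts i)⟩) ⁻¹' {true} := by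
      ext c
      change (str c).RelMap R (fun i => @Term.realize L ℕ (str c) _ (Sum.elim w v) (ts i)) ↔ _
      have h : (fun i => @Term.realize L ℕ (str c) _ (Sum.elim w v) (ts i)) =
          fun i => @Term.realize L ℕ (str fun _ => true) _ (Sum.elim w v) (ts i) :=
        funext fun i => term_indep (ts i) c (fun _ => true) _
      rw [h]
      exact Iff.rfl
    rw [e]
    exact (measurable_pi_apply _) (measurableSet_singleton true)
  | imp φ ψ ih1 ih2 =>
    have e : {c : Code L | @BoundedFormula.Realize L ℕ (str c) Empty _
        (BoundedFormula.imp φ ψ) w v} =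
        {c : Code L | @BoundedFormula.Realize L ℕ (str c) Empty _ φ w v}ᶜ ∪
        {c : Code L | @BoundedFormula.Realize L ℕ (str c) Empty _ ψ w v} := by
      ext c
      change (@BoundedFormula.Realize L ℕ (str c) Empty _ φ w v →
        @BoundedFormula.Realize L ℕ (str c) Empty _ ψ w v) ↔
        (¬ @BoundedFormula.Realize L ℕ (str c) Empty _ φ w v ∨
        @BoundedFormula.Realize L ℕ (str c) Empty _ ψ w v)
      exact imp_iff_not_or
    rw [e]
    exact (ih1 v).compl.union (ih2 v)
  | all φ ih =>
    have e : {c : Code L | @BoundedFormula.Realize L ℕ (str c) Empty _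
        (BoundedFormula.all φ) w v} =
        ⋂ x : ℕ, {c : Code L | @BoundedFormula.Realize L ℕ (str c) Empty _ φ w (Fin.snoc v x)} := by
      ext c
      rw [mem_iInter]
      exact Iff.rfl
    rw [e]
    exact MeasurableSet.iInter fun x => ih _

theorem task : S_MEA := by
  intro L _ hL T
  have hc : Countable L.Sentence := countable_sent hL
  have e : {c : Code L | Mods (str c) T} =
      ⋂ σ ∈ T, {c : Code L | @Sentence.Realize L ℕ (str c) σ} := by
    ext c
    rw [mem_iInter₂]
    constructor
    · intro h σ hσ
      exact (@Theory.model_iff L ℕ (str c) T).1 h σ hσ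
    · intro h
      exact (@Theory.model_iff L ℕ (str c) T).2 h
  rw [e]
  exact MeasurableSet.biInter (Set.to_countable T) fun σ _ => meas σ _ _

end Pool.Agent.W108.VPMEA
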