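import Pool.Agent.W921.VP.DefsC

set_option autoImplicit false

/-! Project VP, task UP1 (helper108). -/

namespace Pool.Agent.W108.VPUP1

open FirstOrder Set Pool.Agent.W921.VP

theorem task (hU : S_ULT) (hB : S_UPB) : S_UP1 := by
  intro L hc hrel T hG hS
  obtain ⟨S, hS⟩ := hS
  obtain ⟨Z, hZ⟩ := hB L hc hrel T hG S hS
  obtain ⟨M, S', U, r, c, t, hcnt, hRel, hinj, hcst, hZc, hm, ht⟩ :=
    hU L hc hrel S Z id Function.injective_id
  obtain ⟨m0, hm0, -⟩ := hm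
  refine ⟨M, S', range c, fun m => ⟨t m, (ht m m.2).1⟩, ?_⟩
  exact {
    cnt := hcnt
    out := ⟨⟨m0, hm0⟩⟩
    tw := fun m => ⟨fun h => (ht m m.2).2.1 (congrArg Subtype.val h), (ht m m.2).2.2.1⟩
    wit := hZ Z (fun k => ⟨k, rfl⟩) M S' U r c hRel hinj hcst hZc }

end Pool.Agent.W108.VPUP1
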